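import Pool.Agent.Helper2.CF.Wsp
import Pool.Agent.Helper93.SR.Cas
import Pool.Agent.Helper88.MT.Extremal

/-!
CF-5a (project CF for MP_b8862a_ag): the Casimir operator of the trace form on a weight space.
-/

open Module LieModule LieAlgebra LieAlgebra.IsKilling

namespace CF

open MTP MTP.MF

section lie

variable {V : Type*} [AddCommGroup V] [Module ℂ V] [FiniteDimensional ℂ V]
  {L : Type*} [LieRing L] [LieAlgebra ℂ L] [FiniteDimensional ℂ L] [IsKilling ℂ L]
  {H : LieSubalgebra ℂ L} [H.IsCartanSubalgebra] [LieRingModule L V] [LieModule ℂ L V]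
  {b : (rootSystem H).Base} {es fs : H.root → L} {S : V →ₗ[ℂ] V →ₗ⋆[ℂ] ℂ} {θ : L → L}

private lemma tau_ne96 (hfaith : ∀ x : L, (∀ u : V, ⁅x, u⁆ = 0) → x = 0)
    {I : Type*} [Fintype I] (B : WB (V := V) H I)
    (hint : ∀ i (α : H.root), ∃ a : ℤ, B.w i (coroot α.1) = (a : ℂ)) {α : H.root} {e f : L}
    (ht : IsSl2Triple ((coroot α.1 : H) : L) e f) (he : e ∈ rootSpace H α.1) : traceForm ℂ L V e f ≠ 0 := by
  intro h0
  have h1 := tf_coroot_self (V := V) ht he
  rw [h0, mul_zero] at h1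
  have h2 : traceForm ℂ H V (coroot α.1) (coroot α.1) =
      traceForm ℂ L V ((coroot α.1 : H) : L) ((coroot α.1 : H) : L) := rfl
  rw [h2, B.traceForm_apply] at h1
  choose a ha using fun i => hint i α
  have h3 : ((∑ i, a i * a i : ℤ) : ℂ) = ((0 : ℤ) : ℂ) := by
    push_cast
    rw [← h1]
    exact Finset.sum_congr rfl fun i _ => by rw [ha i]
  have h4 : ∑ i, a i * a i = 0 := by exact_mod_cast h3
  have h5 : ∀ i, a i = 0 := by
    intro i
    have h6 := (Finset.sum_eq_zero_iff_of_nonneg fun i _ => mul_self_nonneg (a i)).1 h4 i (Finset.mem_univ i)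
    exact mul_self_eq_zero.1 h6
  apply ht.h_ne_zero
  refine hfaith _ fun u => ?_
  rw [← B.v.sum_repr u, lie_sum]
  refine Finset.sum_eq_zero fun i _ => ?_
  rw [lie_smul, B.lie_v, ha i, h5 i]
  simp

omit [FiniteDimensional ℂ V] [FiniteDimensional ℂ L] [IsKilling ℂ L] [H.IsCartanSubalgebra] in
private lemma orth96 {z w : L} {h : L} {c d : ℂ} (hz : ⁅h, z⁆ = c • z) (hw : ⁅h, w⁆ = d • w) (hne : c + d ≠ 0) :
    traceForm ℂ L V z w = 0 := by
  have h3 := traceForm_apply_lie_apply ℂ L V z h w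
  rw [← lie_skew, hz, hw] at h3
  simp only [map_neg, map_smul, LinearMap.neg_apply, LinearMap.smul_apply, smul_eq_mul] at h3
  have h4 : (c + d) * traceForm ℂ L V z w = 0 := by linear_combination -h3
  exact (mul_eq_zero.1 h4).resolve_left hne

private lemma exists_neg96 (β : H.root) : ∃ α : H.root, α = (rootSystem H).reflectionPerm β β ∧ ∀ h, α.1 h = -β.1 h := by
  refine ⟨_, rfl, fun h => ?_⟩
  have h1 : (rootSystem H).root ((rootSystem H).reflectionPerm β β) = -(rootSystem H).root β := by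
    rw [RootPairing.root_reflectionPerm, RootPairing.reflection_apply_self]
  exact congrArg (fun f : Dual ℂ H => f h) h1

private lemma ab96 (h x : H) : ⁅(h : L), (x : L)⁆ = (0 : ℂ) • (x : L) := by
  rw [zero_smul]
  have h1 : ⁅h, x⁆ = 0 := trivial_lie_zero H H h x
  exact congrArg (fun w : H => (w : L)) h1

omit [IsKilling ℂ L] [FiniteDimensional ℂ L] in
private lemma line96 {z : L} {χ : H → ℂ} (hz : z ∈ rootSpace H χ) {ψ : H → ℂ} (h : ∀ x, χ x = ψ x) : z ∈ rootSpace H ψ := by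
  have e : χ = ψ := funext h
  rwa [← e]

/-- the trace form is nondegenerate on the Cartan subalgebra -/
private lemma nd96 (hfaith : ∀ x : L, (∀ u : V, ⁅x, u⁆ = 0) → x = 0)
    {I : Type*} [Fintype I] (B : WB (V := V) H I)
    (hint : ∀ i (α : H.root), ∃ a : ℤ, B.w i (coroot α.1) = (a : ℂ)) {x : H}
    (hx : ∀ y : H, traceForm ℂ H V x y = 0) : x = 0 := by
  have h1 : ∀ α : Weight ℂ H L, α x = 0 := by
    intro α
    by_cases h0 : α.IsZero
    · exact congrFun h0 x
    · have hα : α ∈ H.root := by simpa [LieSubalgebra.root] using h0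
      obtain ⟨e, f, ht, he, hf⟩ := exists_triple (⟨α, hα⟩ : H.root)
      have h2 := tf_coroot (V := V) ht he x
      rw [hx] at h2
      exact (mul_eq_zero.1 h2.symm).resolve_right (tau_ne96 hfaith B hint ht he)
  have h2 : x ∈ (⨅ α : Weight ℂ H L, α.ker : Submodule ℂ H) := by
    rw [Submodule.mem_iInf]
    intro α
    exact h1 α
  rw [iInf_ker_weight_eq_bot] at h2
  exact (Submodule.mem_bot ℂ).1 h2

/-- the range of the representation -/
private noncomputable def rg96 (V L : Type*) [AddCommGroup V] [Module ℂ V] [LieRing L] [LieAlgebra ℂ L]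
    [LieRingModule L V] [LieModule ℂ L V] : Submodule ℂ (Module.End ℂ V) :=
  LinearMap.range (toEnd ℂ L V : L →ₗ[ℂ] Module.End ℂ V)

open Classical in
private lemma exists_dual96 (hfaith : ∀ x : L, (∀ u : V, ⁅x, u⁆ = 0) → x = 0)
    {I : Type*} [Fintype I] (B : WB (V := V) H I)
    (hint : ∀ i (α : H.root), ∃ a : ℤ, B.w i (coroot α.1) = (a : ℂ))
    (ea fa : H.root → L) (ht : ∀ α : H.root, IsSl2Triple ((coroot α.1 : H) : L) (ea α) (fa α))
    (he : ∀ α, ea α ∈ rootSpace H α.1) (hf : ∀ α, fa α ∈ rootSpace H (-α.1)) :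
    ∃ (r : ℕ) (p q : Fin r → H),
      (∀ z : L, ∑ α : H.root, traceForm ℂ L V z ((traceForm ℂ L V (ea α) (fa α))⁻¹ • fa α) • ea α +
        ∑ i, traceForm ℂ L V z (q i : L) • (p i : L) = z) ∧
      (∀ z : L, ∑ α : H.root, traceForm ℂ L V z (ea α) • ((traceForm ℂ L V (ea α) (fa α))⁻¹ • fa α) +
        ∑ i, traceForm ℂ L V z (p i : L) • (q i : L) = z) := by
  have hτ : ∀ α : H.root, traceForm ℂ L V (ea α) (fa α) ≠ 0 := fun α => tau_ne96 hfaith B hint (ht α) (he α)
  let T : LinearMap.BilinForm ℂ H := traceForm ℂ H V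
  have hsym : T.IsSymm := ⟨fun x y => traceForm_comm ℂ H V x y⟩
  have hnd : T.Nondegenerate := by
    refine (LinearMap.IsRefl.nondegenerate_iff_separatingLeft (B := T) hsym.isRefl).mpr ?_
    intro x hx
    exact nd96 hfaith B hint hx
  let β := Module.finBasis ℂ H
  let β' := T.dualBasis hnd β
  have hβ' : T.dualBasis hnd β' = β := LinearMap.BilinForm.dualBasis_dualBasis hnd hsym β
  have hTf : ∀ x y : H, T x y = traceForm ℂ L V (x : L) (y : L) := fun x y => rfl
  have k1 : ∀ x : H, ∑ i, traceForm ℂ L V (x : L) (β' i : L) • (β i : L) = (x : L) := by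
    intro x
    have h1 : ((∑ i, β.repr x i • β i : H) : L) = (x : L) := congrArg (fun w : H => (w : L)) (β.sum_repr x)
    rw [AddSubmonoidClass.coe_finsetSum] at h1
    refine Eq.trans (Finset.sum_congr rfl fun i _ => ?_) h1
    have h3 := LinearMap.BilinForm.dualBasis_repr_apply (B := T) hnd β' x i
    rw [hβ'] at h3
    rw [h3, hTf]
    rfl
  have k2 : ∀ x : H, ∑ i, traceForm ℂ L V (x : L) (β i : L) • (β' i : L) = (x : L) := by
    intro x
    have h1 : ((∑ i, β'.repr x i • β' i : H) : L) = (x : L) := congrArg (fun w : H => (w : L)) (β'.sum_repr x)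
    rw [AddSubmonoidClass.coe_finsetSum] at h1
    refine Eq.trans (Finset.sum_congr rfl fun i _ => ?_) h1
    have h3 := LinearMap.BilinForm.dualBasis_repr_apply (B := T) hnd β x i
    rw [h3, hTf]
    rfl
  have two : ∀ α : H.root, α.1 (coroot α.1) = 2 := fun α => root_apply_coroot (H.isNonZero_coe_root α)
  have he' : ∀ (α : H.root) (h : H), ⁅(h : L), ea α⁆ = α.1 h • ea α := fun α h => lie_eq_smul_of_mem_rootSpace (he α) h
  have hf' : ∀ (α : H.root) (h : H), ⁅(h : L), fa α⁆ = (-α.1 h) • fa α := by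
    intro α h
    exact lie_eq_smul_of_mem_rootSpace (hf α) h
  have zero_case : ∀ {χ : Weight ℂ H L} {z : L}, z ∈ rootSpace H χ → χ.IsZero → ∃ x : H, z = (x : L) := by
    intro χ z hz h0
    have h1 : (χ : H → ℂ) = 0 := h0
    rw [h1, LieAlgebra.rootSpace_zero_eq] at hz
    exact ⟨⟨z, hz⟩, rfl⟩
  have ne_case : ∀ {α β : H.root}, α ≠ β → ∃ h, α.1 h ≠ β.1 h := by
    intro α β hne
    by_contra! hcon
    exact hne (Subtype.ext (Weight.ext hcon))
  refine ⟨_, β, β', ?_, ?_⟩
  · intro z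
    let U : Submodule ℂ L := LinearMap.eqLocus
      (∑ α : H.root, LinearMap.smulRight ((traceForm ℂ L V).flip ((traceForm ℂ L V (ea α) (fa α))⁻¹ • fa α)) (ea α) +
        ∑ i, LinearMap.smulRight ((traceForm ℂ L V).flip (β' i : L)) (β i : L)) LinearMap.id
    have hU : ∀ z : L, z ∈ U ↔ ∑ α : H.root, traceForm ℂ L V z ((traceForm ℂ L V (ea α) (fa α))⁻¹ • fa α) • ea α +
        ∑ i, traceForm ℂ L V z (β' i : L) • (β i : L) = z := by
      intro z
      simp only [U, LinearMap.mem_eqLocus, LinearMap.add_apply, LinearMap.sum_apply, LinearMap.smulRight_apply,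
        LinearMap.id_apply]
      exact Iff.rfl
    clear_value U
    rw [← hU]
    refine root_induction (U := U) (H := H) ?_ z
    intro χ z hz
    rw [hU]
    by_cases h0 : χ.IsZero
    · obtain ⟨x, rfl⟩ := zero_case hz h0
      rw [Finset.sum_eq_zero, zero_add, k1 x]
      intro α _
      rw [map_smul, orth96 (ab96 (coroot α.1) x) (hf' α (coroot α.1)) (by rw [two]; norm_num), smul_zero, zero_smul]
    · have hχ : χ ∈ H.root := by simpa [LieSubalgebra.root] using h0
      obtain ⟨γ, hγ⟩ : ∃ γ : H.root, γ.1 = χ := ⟨⟨χ, hχ⟩, rfl⟩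
      rw [← hγ] at hz
      have hz' : ∀ h : H, ⁅(h : L), z⁆ = γ.1 h • z := fun h => lie_eq_smul_of_mem_rootSpace hz h
      have hsum : ∑ i, traceForm ℂ L V z (β' i : L) • (β i : L) = 0 := by
        refine Finset.sum_eq_zero fun i _ => ?_
        rw [orth96 (hz' (coroot γ.1)) (ab96 (coroot γ.1) (β' i)) (by rw [two]; norm_num), zero_smul]
      rw [hsum, add_zero, Finset.sum_eq_single γ]
      · obtain ⟨c, hc⟩ := mem_line (he γ) (fun h => hτ γ (by rw [h, map_zero, LinearMap.zero_apply])) hz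
        rw [hc, map_smul, map_smul, LinearMap.smul_apply, smul_eq_mul, smul_eq_mul]
        congr 1
        have h5 := hτ γ
        field_simp
      · intro α _ hα
        obtain ⟨h, hh⟩ := ne_case hα
        rw [map_smul, orth96 (hz' h) (hf' α h) (by
          intro h1
          exact hh (by linear_combination -h1)), smul_zero, zero_smul]
      · intro h
        exact absurd (Finset.mem_univ γ) h
  · intro z
    let U : Submodule ℂ L := LinearMap.eqLocus
      (∑ α : H.root, LinearMap.smulRight ((traceForm ℂ L V).flip (ea α)) ((traceForm ℂ L V (ea α) (fa α))⁻¹ • fa α) +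
        ∑ i, LinearMap.smulRight ((traceForm ℂ L V).flip (β i : L)) (β' i : L)) LinearMap.id
    have hU : ∀ z : L, z ∈ U ↔ ∑ α : H.root, traceForm ℂ L V z (ea α) • ((traceForm ℂ L V (ea α) (fa α))⁻¹ • fa α) +
        ∑ i, traceForm ℂ L V z (β i : L) • (β' i : L) = z := by
      intro z
      simp only [U, LinearMap.mem_eqLocus, LinearMap.add_apply, LinearMap.sum_apply, LinearMap.smulRight_apply,
        LinearMap.id_apply]
      exact Iff.rfl
    clear_value U
    rw [← hU]
    refine root_induction (U := U) (H := H) ?_ z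
    intro χ z hz
    rw [hU]
    by_cases h0 : χ.IsZero
    · obtain ⟨x, rfl⟩ := zero_case hz h0
      rw [Finset.sum_eq_zero, zero_add, k2 x]
      intro α _
      rw [orth96 (ab96 (coroot α.1) x) (he' α (coroot α.1)) (by rw [two]; norm_num), zero_smul]
    · have hχ : χ ∈ H.root := by simpa [LieSubalgebra.root] using h0
      obtain ⟨γ, hγ⟩ : ∃ γ : H.root, γ.1 = χ := ⟨⟨χ, hχ⟩, rfl⟩
      rw [← hγ] at hz
      have hz' : ∀ h : H, ⁅(h : L), z⁆ = γ.1 h • z := fun h => lie_eq_smul_of_mem_rootSpace hz h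
      have hsum : ∑ i, traceForm ℂ L V z (β i : L) • (β' i : L) = 0 := by
        refine Finset.sum_eq_zero fun i _ => ?_
        rw [orth96 (hz' (coroot γ.1)) (ab96 (coroot γ.1) (β i)) (by rw [two]; norm_num), zero_smul]
      obtain ⟨δ, -, hδ⟩ := exists_neg96 γ
      rw [hsum, add_zero, Finset.sum_eq_single δ]
      · have hfδ : fa δ ∈ rootSpace H γ.1 := by
          refine line96 (hf δ) fun h => ?_
          rw [Pi.neg_apply, hδ, neg_neg]
        obtain ⟨c, hc⟩ := mem_line hfδ (fun h => hτ δ (by rw [h, map_zero])) hz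
        rw [hc, map_smul, LinearMap.smul_apply, traceForm_comm ℂ L V (fa δ) (ea δ), smul_smul, smul_eq_mul]
        congr 1
        have h5 := hτ δ
        field_simp
      · intro α _ hα
        obtain ⟨h, hh⟩ := ne_case hα
        rw [orth96 (hz' h) (he' α h) (by
          intro h1
          apply hh
          rw [hδ]
          linear_combination h1), zero_smul]
      · intro h
        exact absurd (Finset.mem_univ δ) h

omit [FiniteDimensional ℂ L] [IsKilling ℂ L] in
/-- Schur's lemma -/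
private lemma schur96 (hirr : ∀ W : Submodule ℂ V, (∀ x : L, ∀ u ∈ W, ⁅x, u⁆ ∈ W) → W = ⊥ ∨ W = ⊤)
    [Nontrivial V] {Ω : Module.End ℂ V} (hΩ : ∀ x : L, toEnd ℂ L V x * Ω = Ω * toEnd ℂ L V x) : ∃ c : ℂ, ∀ v, Ω v = c • v := by
  obtain ⟨c, hc⟩ := Module.End.exists_eigenvalue Ω
  refine ⟨c, fun v => ?_⟩
  have h1 : Module.End.eigenspace Ω c = ⊤ := by
    refine (hirr _ fun x u hu => ?_).resolve_left hc
    rw [Module.End.mem_eigenspace_iff] at hu ⊢
    have h2 := congrArg (fun f : Module.End ℂ V => f u) (hΩ x)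
    simp only [Module.End.mul_apply, toEnd_apply_apply] at h2
    rw [← h2, hu, lie_smul]
  have h2 : v ∈ Module.End.eigenspace Ω c := by
    rw [h1]
    trivial
  exact Module.End.mem_eigenspace_iff.1 h2

open Classical in
/-- CF-5a: the Casimir operator of the trace form. -/
theorem cas_scalar (hirr : ∀ W : Submodule ℂ V, (∀ x : L, ∀ u ∈ W, ⁅x, u⁆ ∈ W) → W = ⊥ ∨ W = ⊤)
    [Nontrivial V] (hfaith : ∀ x : L, (∀ u : V, ⁅x, u⁆ = 0) → x = 0)
    {I : Type*} [Fintype I] (B : WB (V := V) H I)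
    (hint : ∀ i (α : H.root), ∃ a : ℤ, B.w i (coroot α.1) = (a : ℂ))
    (ea fa : H.root → L) (ht : ∀ α : H.root, IsSl2Triple ((coroot α.1 : H) : L) (ea α) (fa α))
    (he : ∀ α, ea α ∈ rootSpace H α.1) (hf : ∀ α, fa α ∈ rootSpace H (-α.1)) (k : I) :
    ∃ a : ℂ, ∀ v ∈ wsp B k,
      ∑ α with b.IsPos α, (traceForm ℂ L V (ea α) (fa α))⁻¹ • ⁅fa α, ⁅ea α, v⁆⁆ = a • v := by
  have hτ : ∀ α : H.root, traceForm ℂ L V (ea α) (fa α) ≠ 0 := fun α => tau_ne96 hfaith B hint (ht α) (he α)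
  obtain ⟨r, p, q, hp, hq⟩ := exists_dual96 hfaith B hint ea fa ht he hf
  have htr : ∀ x y : L, LinearMap.trace ℂ V (toEnd ℂ L V x * toEnd ℂ L V y) = traceForm ℂ L V x y := fun x y => rfl
  -- the dual families
  let X : H.root ⊕ Fin r → Module.End ℂ V := Sum.elim (fun α => toEnd ℂ L V (ea α)) (fun i => toEnd ℂ L V (p i : L))
  let Y : H.root ⊕ Fin r → Module.End ℂ V := Sum.elim
    (fun α => toEnd ℂ L V ((traceForm ℂ L V (ea α) (fa α))⁻¹ • fa α)) (fun i => toEnd ℂ L V (q i : L))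
  have hmem : ∀ x : L, toEnd ℂ L V x ∈ rg96 V L := fun x => ⟨x, rfl⟩
  have hD : Dl (rg96 V L) X Y := by
    refine ⟨?_, ?_, ?_, ?_⟩
    · rintro (α | i)
      · exact hmem _
      · exact hmem _
    · rintro (α | i)
      · exact hmem _
      · exact hmem _
    · rintro _ ⟨z, rfl⟩
      have h1 := congrArg (toEnd ℂ L V : L →ₗ[ℂ] Module.End ℂ V) (hp z)
      rw [Fintype.sum_sum_type]
      refine Eq.trans ?_ h1
      rw [map_add, map_sum, map_sum]
      congr 1
      · refine Finset.sum_congr rfl fun α _ => ?_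
        rw [map_smul]
        rfl
      · refine Finset.sum_congr rfl fun i _ => ?_
        rw [map_smul]
        rfl
    · rintro _ ⟨z, rfl⟩
      have h1 := congrArg (toEnd ℂ L V : L →ₗ[ℂ] Module.End ℂ V) (hq z)
      rw [Fintype.sum_sum_type]
      refine Eq.trans ?_ h1
      rw [map_add, map_sum, map_sum]
      congr 1
      · refine Finset.sum_congr rfl fun α _ => ?_
        rw [map_smul (toEnd ℂ L V : L →ₗ[ℂ] Module.End ℂ V) (traceForm ℂ L V z (ea α))]
        rfl
      · refine Finset.sum_congr rfl fun i _ => ?_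
        rw [map_smul]
        rfl
  have hbr : ∀ x ∈ rg96 V L, ∀ y ∈ rg96 V L, x * y - y * x ∈ rg96 V L := by
    rintro _ ⟨x, rfl⟩ _ ⟨y, rfl⟩
    exact ⟨⁅x, y⁆, LinearMap.ext fun u => lie_lie x y u⟩
  obtain ⟨c, hc⟩ := schur96 (V := V) (L := L) hirr (Ω := ∑ i, X i * Y i) (by
    intro x
    have h1 := hD.inv hbr (hmem x) (LinearMap.mul ℂ (Module.End ℂ V))
    simp only [LinearMap.mul_apply'] at h1
    rw [← sub_eq_zero, Finset.mul_sum, Finset.sum_mul, ← Finset.sum_sub_distrib, ← h1]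
    refine Finset.sum_congr rfl fun i _ => ?_
    noncomm_ring)
  obtain ⟨s, hs⟩ : ∃ s : ℂ, s = ∑ α with b.IsPos α, (traceForm ℂ L V (ea α) (fa α))⁻¹ * B.w k (coroot α.1) := ⟨_, rfl⟩
  obtain ⟨s', hs'⟩ : ∃ s' : ℂ, s' = ∑ i, B.w k (q i) * B.w k (p i) := ⟨_, rfl⟩
  refine ⟨(c - s - s') / 2, fun v hv => ?_⟩
  have hv' : ∀ h : H, ⁅(h : L), v⁆ = B.w k h • v := hv
  have h1 := hc v
  rw [Fintype.sum_sum_type, LinearMap.add_apply, LinearMap.sum_apply, LinearMap.sum_apply] at h1
  have h2 : ∑ i, (X (Sum.inr i) * Y (Sum.inr i)) v = s' • v := by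
    rw [hs', Finset.sum_smul]
    refine Finset.sum_congr rfl fun i _ => ?_
    change ⁅(p i : L), ⁅(q i : L), v⁆⁆ = _
    rw [hv', lie_smul, hv', smul_smul]
  obtain ⟨G, hG⟩ : ∃ G : H.root → V, ∀ α, G α = (traceForm ℂ L V (ea α) (fa α))⁻¹ • ⁅ea α, ⁅fa α, v⁆⁆ := ⟨_, fun _ => rfl⟩
  obtain ⟨P, hP⟩ : ∃ P : H.root → V, ∀ α, P α = (traceForm ℂ L V (ea α) (fa α))⁻¹ • ⁅fa α, ⁅ea α, v⁆⁆ := ⟨_, fun _ => rfl⟩
  have h3 : ∑ α, (X (Sum.inl α) * Y (Sum.inl α)) v = ∑ α, G α := by
    refine Finset.sum_congr rfl fun α _ => ?_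
    change ⁅ea α, ⁅(traceForm ℂ L V (ea α) (fa α))⁻¹ • fa α, v⁆⁆ = _
    rw [smul_lie, lie_smul, hG]
  have hGP : ∀ α, G α = P α + ((traceForm ℂ L V (ea α) (fa α))⁻¹ * B.w k (coroot α.1)) • v := by
    intro α
    rw [hG, hP, leibniz_lie, (ht α).lie_e_f, hv', smul_add, smul_smul, add_comm]
  have hneg : ∀ α β : H.root, (∀ h, β.1 h = -α.1 h) → G β = P α := by
    intro α β hβ
    have e1 : fa α ∈ rootSpace H β.1 := line96 (hf α) fun h => by rw [Pi.neg_apply, hβ]
    have e2 : ea β ∈ rootSpace H β.1 := he β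
    have hf0 : fa α ≠ 0 := fun h => hτ α (by rw [h, map_zero])
    have he0 : ea α ≠ 0 := fun h => hτ α (by rw [h, map_zero, LinearMap.zero_apply])
    have e3 : fa β ∈ rootSpace H α.1 := line96 (hf β) fun h => by rw [Pi.neg_apply, hβ, neg_neg]
    obtain ⟨x, hx⟩ := mem_line e1 hf0 e2
    obtain ⟨y, hy⟩ := mem_line (he α) he0 e3
    have hτβ := hτ β
    rw [hG, hP, hx, hy, map_smul, map_smul, LinearMap.smul_apply, smul_lie, smul_lie, lie_smul, smul_smul, smul_smul,
      traceForm_comm ℂ L V (fa α) (ea α), smul_eq_mul, smul_eq_mul]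
    rw [hx, hy, map_smul, map_smul, LinearMap.smul_apply, smul_eq_mul, smul_eq_mul, traceForm_comm ℂ L V (fa α) (ea α)] at hτβ
    congr 1
    have hy0 : y ≠ 0 := fun h => hτβ (by rw [h, zero_mul])
    have hx0 : x ≠ 0 := fun h => hτβ (by rw [h, zero_mul, mul_zero])
    have h5 := hτ α
    field_simp
  have h4 : ∑ α with ¬ b.IsPos α, G α = ∑ α with b.IsPos α, P α := by
    let _ := (rootSystem H).indexNeg
    have hn : ∀ α : H.root, ∀ h, (-α).1 h = -α.1 h := by
      intro α
      obtain ⟨β, hβ, hβ'⟩ := exists_neg96 α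
      have e : -α = β := by
        rw [hβ]
        rfl
      rw [e]
      exact hβ'
    refine Finset.sum_bij' (fun α _ => -α) (fun α _ => -α) ?_ ?_ ?_ ?_ ?_
    · intro α hα
      rw [Finset.mem_filter] at hα ⊢
      exact ⟨Finset.mem_univ _, (RootPairing.Base.IsPos.neg_iff_not b α).2 hα.2⟩
    · intro α hα
      rw [Finset.mem_filter] at hα ⊢
      refine ⟨Finset.mem_univ _, fun h => (RootPairing.Base.IsPos.neg_iff_not b α).1 h hα.2⟩
    · intro α _
      exact neg_neg α
    · intro α _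
      exact neg_neg α
    · intro α _
      exact hneg (-α) α fun h => by rw [hn, neg_neg]
  have h5 : ∑ α, G α = (2 : ℂ) • ∑ α with b.IsPos α, P α + s • v := by
    rw [← Finset.sum_filter_add_sum_filter_not Finset.univ (fun α => b.IsPos α), h4, Finset.sum_congr rfl fun α _ => hGP α,
      Finset.sum_add_distrib, hs, Finset.sum_smul, two_smul]
    abel
  rw [h2, h3, h5] at h1
  have h6 : (2 : ℂ) • ∑ α with b.IsPos α, P α = (c - s - s') • v := by
    rw [sub_smul, sub_smul, ← h1]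
    abel
  have h7 : ∑ α with b.IsPos α, (traceForm ℂ L V (ea α) (fa α))⁻¹ • ⁅fa α, ⁅ea α, v⁆⁆ = ∑ α with b.IsPos α, P α :=
    Finset.sum_congr rfl fun α _ => (hP α).symm
  rw [h7, div_eq_inv_mul, mul_smul, ← h6, smul_smul, inv_mul_cancel₀ two_ne_zero, one_smul]

end lie

end CF
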